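import Mathlib

/-!
# Colourings of the natural numbers recognised by a finite monoid

`word φ b n` is the product of the images under `φ` of the digits of `n` in base `b`, starting with
the least significant digit. For suitable `N, P` the word of a sum of `b ^ (2 N m)`, `m ∈ T`, does not
depend on the finite nonempty set `T` of positive integers if `2 P` divides the size of `T`.
-/

set_option autoImplicit false

namespace Pool.Agent.Y388.AU

open Finset

variable {M : Type*} [Monoid M]

/-- the product of the images of the digits -/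
def word (φ : ℕ → M) (b n : ℕ) : M := ((Nat.digits b n).map φ).prod

theorem exists_idem [Finite M] (x : M) : ∃ N : ℕ, 0 < N ∧ x ^ N * x ^ N = x ^ N := by
  obtain ⟨m, n, hne, h⟩ := Finite.exists_ne_map_eq_of_infinite (fun n : ℕ => x ^ n)
  wlog hmn : m < n generalizing m n
  · exact this n m (Ne.symm hne) h.symm (by omega)
  obtain ⟨p, rfl⟩ := Nat.exists_eq_add_of_lt hmn
  -- x ^ m = x ^ (m + p + 1)
  have h1 : ∀ k : ℕ, x ^ (m + k * (p + 1)) = x ^ m := by
    intro k
    induction k with
    | zero => simp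
    | succ k ih =>
      have e : m + (k + 1) * (p + 1) = (m + k * (p + 1)) + (p + 1) := by ring
      rw [e, pow_add, ih, ← pow_add]
      exact h.symm
  have h2 : ∀ l k : ℕ, m ≤ l → x ^ (l + k * (p + 1)) = x ^ l := by
    intro l k hl
    obtain ⟨d, rfl⟩ := Nat.exists_eq_add_of_le hl
    have e : m + d + k * (p + 1) = d + (m + k * (p + 1)) := by ring
    rw [e, pow_add, h1, ← pow_add, Nat.add_comm]
  refine ⟨(m + 1) * (p + 1), by positivity, ?_⟩
  rw [← pow_add]
  exact h2 _ _ (by nlinarith)

theorem idem_pow {z : M} (hz : z * z = z) {k : ℕ} (hk : 0 < k) : z ^ k = z := by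
  obtain ⟨k, rfl⟩ := Nat.exists_eq_succ_of_ne_zero hk.ne'
  induction k with
  | zero => simp
  | succ k ih => rw [pow_succ, ih (by omega), hz]

theorem word_add (φ : ℕ → M) {b : ℕ} (hb : 1 < b) (n k : ℕ) :
    word φ b (n + b ^ ((Nat.digits b n).length + k)) = word φ b n * (φ 0 ^ k * φ 1) := by
  have h := Nat.digits_append_zeroes_append_digits (b := b) (k := k) (m := 1) (n := n) hb one_pos
  rw [mul_one] at h
  unfold word
  rw [← h]
  have h1 : Nat.digits b 1 = [1] := Nat.digits_of_lt b 1 one_ne_zero hb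
  rw [h1]
  simp [List.map_append, List.prod_append, List.map_replicate, List.prod_replicate]

theorem length_add {b : ℕ} (hb : 1 < b) (n k : ℕ) :
    (Nat.digits b (n + b ^ ((Nat.digits b n).length + k))).length =
      (Nat.digits b n).length + k + 1 := by
  have h := Nat.digits_append_zeroes_append_digits (b := b) (k := k) (m := 1) (n := n) hb one_pos
  rw [mul_one] at h
  have h1 : Nat.digits b 1 = [1] := Nat.digits_of_lt b 1 one_ne_zero hb
  rw [← h, h1]
  simp
  omega

/-- the numbers considered -/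
def val (b N : ℕ) (T : Finset ℕ) : ℕ := ∑ m ∈ T, b ^ (2 * N * m)

theorem word_val (φ : ℕ → M) {b N : ℕ} (hb : 1 < b) (hN : 0 < N)
    (hz : φ 0 ^ N * φ 0 ^ N = φ 0 ^ N) (T : Finset ℕ) :
    (∀ m ∈ T, 0 < m) → ∀ a ∈ T, (∀ m ∈ T, m ≤ a) →
      (Nat.digits b (val b N T)).length = 2 * N * a + 1 ∧
      word φ b (val b N T) =
        φ 0 ^ N * φ 1 * (φ 0 ^ (N - 1) * φ 0 ^ N * φ 1) ^ (T.card - 1) := by
  induction T using Finset.induction_on_max with
  | empty =>
    intro _ a ha
    exact absurd ha (Finset.notMem_empty a)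
  | insert a T hmax ih =>
    intro hpos a' ha' hle
    have haT : a ∉ T := fun h => lt_irrefl a (hmax a h)
    have haa : a' = a := by
      rcases Finset.mem_insert.1 ha' with h | h
      · exact h
      · exact absurd (hle a (Finset.mem_insert_self a T)) (not_le.2 (hmax a' h))
    subst haa
    have hval : val b N (insert a' T) = val b N T + b ^ (2 * N * a') := by
      unfold val
      rw [Finset.sum_insert haT, add_comm]
    rcases T.eq_empty_or_nonempty with rfl | hT
    · have e0 : val b N (∅ : Finset ℕ) = 0 := by simp [val]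
      rw [hval, e0]
      have h1 := length_add hb 0 (2 * N * a')
      have h2 := word_add φ hb 0 (2 * N * a')
      simp only [Nat.digits_zero, List.length_nil, Nat.zero_add] at h1 h2
      simp only [Nat.zero_add]
      refine ⟨h1, ?_⟩
      rw [h2]
      have e1 : φ 0 ^ (2 * N * a') = φ 0 ^ N := by
        have e2 : 2 * N * a' = N * (2 * a') := by ring
        have : 0 < a' := hpos a' (Finset.mem_insert_self _ _)
        rw [e2, pow_mul, idem_pow hz (by omega)]
      have e3 : word φ b 0 = 1 := by simp [word]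
      rw [e1, e3]
      simp
    · obtain ⟨m, hm, hmm⟩ : ∃ m ∈ T, ∀ x ∈ T, x ≤ m :=
        ⟨T.max' hT, T.max'_mem hT, fun x hx => T.le_max' x hx⟩
      obtain ⟨h1, h2⟩ := ih (fun x hx => hpos x (Finset.mem_insert_of_mem hx)) m hm hmm
      have hma : m < a' := hmax m hm
      obtain ⟨g, rfl⟩ := Nat.exists_eq_add_of_lt hma
      set k := 2 * N * g + (2 * N - 1) with hk
      have e1 : 2 * N * (m + g + 1) = (Nat.digits b (val b N T)).length + k := by
        rw [h1, hk]
        have : 1 ≤ 2 * N := by omega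
        have e : 2 * N * (m + g + 1) = 2 * N * m + 2 * N * g + 2 * N := by ring
        rw [e]
        omega
      rw [hval, e1, length_add hb, word_add φ hb, h2]
      refine ⟨by omega, ?_⟩
      have e2 : φ 0 ^ k = φ 0 ^ (N - 1) * φ 0 ^ N := by
        have e : k = (N - 1) + N * (2 * g + 1) := by
          rw [hk]
          have : N * (2 * g + 1) = 2 * N * g + N := by ring
          rw [this]
          omega
        rw [e, pow_add, pow_mul (φ 0) N, idem_pow hz (by omega)]
      rw [e2, Finset.card_insert_of_notMem haT]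
      have hc : 0 < T.card := Finset.card_pos.2 hT
      have e3 : T.card + 1 - 1 = (T.card - 1) + 1 := by omega
      rw [e3, pow_succ]
      simp only [mul_assoc]

/-- The word of `val b N T` is the same for all nonempty `T` whose size is divisible by `2 P`. -/
theorem exists_const [Finite M] (φ : ℕ → M) {b : ℕ} (hb : 1 < b) :
    ∃ N P : ℕ, 0 < N ∧ 0 < P ∧ ∃ g : M, ∀ T : Finset ℕ, T.Nonempty → (∀ m ∈ T, 0 < m) →
      2 * P ∣ T.card → word φ b (val b N T) = g := by
  obtain ⟨N, hN, hz⟩ := exists_idem (φ 0)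
  obtain ⟨P, hP, hu⟩ := exists_idem (φ 0 ^ (N - 1) * φ 0 ^ N * φ 1)
  refine ⟨N, P, hN, hP, φ 0 ^ N * φ 1 * ((φ 0 ^ (N - 1) * φ 0 ^ N * φ 1) ^ (P - 1) *
    (φ 0 ^ (N - 1) * φ 0 ^ N * φ 1) ^ P), ?_⟩
  intro T hT hpos hdvd
  obtain ⟨_, h⟩ := word_val φ hb hN hz T hpos (T.max' hT) (T.max'_mem hT)
    (fun x hx => T.le_max' x hx)
  rw [h]
  congr 1
  obtain ⟨k, hk⟩ := hdvd
  have hc : 0 < T.card := Finset.card_pos.2 hT
  obtain ⟨k, rfl⟩ : ∃ k', k = k' + 1 := by
    rcases k with _ | k
    · rw [Nat.mul_zero] at hk; omega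
    · exact ⟨k, rfl⟩
  have e : T.card - 1 = (P - 1) + P * (2 * k + 1) := by
    rw [hk]
    have e1 : 2 * P * (k + 1) = P + P * (2 * k + 1) := by ring
    rw [e1]
    have : 0 < P * (2 * k + 1) := by positivity
    omega
  rw [e, pow_add, pow_mul _ P, idem_pow hu (by omega)]

end Pool.Agent.Y388.AU
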