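import Pool.Agent.Y388.AU.Basic

/-!
# Sums of products for colourings recognised by a finite monoid
-/

set_option autoImplicit false

namespace Pool.Agent.Y388.AU

open Finset

/-- the exponent attached to a choice -/
def expo (R : ℕ) (s : (F : Finset ℕ) × (∀ a ∈ F, ℕ)) : ℕ :=
  ∑ x ∈ s.1.attach, 2 ^ (R * x.1 + s.2 x.1 x.2)

theorem expo_inj {R : ℕ} (hR : 0 < R) {s t : (F : Finset ℕ) × (∀ a ∈ F, ℕ)}
    (hs : ∀ a ha, s.2 a ha < R) (ht : ∀ a ha, t.2 a ha < R) (h : expo R s = expo R t) : s = t := by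
  classical
  have key : ∀ u : (F : Finset ℕ) × (∀ a ∈ F, ℕ), (∀ a ha, u.2 a ha < R) →
      expo R u = ∑ k ∈ u.1.attach.image (fun x => R * x.1 + u.2 x.1 x.2), 2 ^ k := by
    intro u hu
    rw [Finset.sum_image]
    · rfl
    · rintro ⟨x, hx⟩ _ ⟨y, hy⟩ _ hxy
      simp only at hxy
      have h1 : (R * x + u.2 x hx) / R = x := by
        rw [Nat.mul_add_div hR, Nat.div_eq_of_lt (hu x hx), Nat.add_zero]
      have h2 : (R * y + u.2 y hy) / R = y := by
        rw [Nat.mul_add_div hR, Nat.div_eq_of_lt (hu y hy), Nat.add_zero]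
      have : x = y := by rw [← h1, ← h2, hxy]
      exact Subtype.ext this
  rw [key s hs, key t ht] at h
  have h3 := Finset.geomSum_injective (n := 2) le_rfl h
  have mem : ∀ u v : (F : Finset ℕ) × (∀ a ∈ F, ℕ), (∀ a ha, u.2 a ha < R) →
      (∀ a ha, v.2 a ha < R) →
      u.1.attach.image (fun x => R * x.1 + u.2 x.1 x.2) =
        v.1.attach.image (fun x => R * x.1 + v.2 x.1 x.2) →
      ∀ a (ha : a ∈ u.1), ∃ ha' : a ∈ v.1, u.2 a ha = v.2 a ha' := by
    intro u v hu hv huv a ha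
    have h4 : R * a + u.2 a ha ∈ v.1.attach.image (fun x => R * x.1 + v.2 x.1 x.2) := by
      rw [← huv]
      exact Finset.mem_image.2 ⟨⟨a, ha⟩, Finset.mem_attach _ _, rfl⟩
    obtain ⟨⟨y, hy⟩, _, hya⟩ := Finset.mem_image.1 h4
    simp only at hya
    have h1 : (R * a + u.2 a ha) / R = a := by
      rw [Nat.mul_add_div hR, Nat.div_eq_of_lt (hu a ha), Nat.add_zero]
    have h2 : (R * y + v.2 y hy) / R = y := by
      rw [Nat.mul_add_div hR, Nat.div_eq_of_lt (hv y hy), Nat.add_zero]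
    have h5 : y = a := by rw [← h1, ← h2, hya]
    subst h5
    refine ⟨hy, ?_⟩
    exact (Nat.add_left_cancel hya).symm
  obtain ⟨F, p⟩ := s
  obtain ⟨G, q⟩ := t
  have hFG : F = G := by
    ext a
    constructor
    · intro ha
      exact (mem _ _ hs ht h3 a ha).1
    · intro ha
      exact (mem _ _ ht hs h3.symm a ha).1
  subst hFG
  congr 1
  funext a ha
  exact (mem _ _ hs ht h3 a ha).2

/-- the sequence -/
def seq (b N R i : ℕ) : ℕ := ∑ j ∈ range R, b ^ (2 * N * 2 ^ (R * i + j))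

/-- a sum of products is a number considered, for a set whose size is divisible by `R` -/
theorem sum_prod (b N R : ℕ) (hR : 0 < R) (𝓕 : Finset (Finset ℕ)) (hne : 𝓕.Nonempty)
    (hF : ∀ F ∈ 𝓕, F.Nonempty) :
    ∃ T : Finset ℕ, T.Nonempty ∧ (∀ m ∈ T, 0 < m) ∧ R ∣ T.card ∧
      ∑ F ∈ 𝓕, ∏ i ∈ F, seq b N R i = val b N T := by
  classical
  set X : Finset ((F : Finset ℕ) × (∀ a ∈ F, ℕ)) := 𝓕.sigma (fun F => F.pi (fun _ => range R))
    with hX
  have hlt : ∀ s ∈ X, ∀ a ha, s.2 a ha < R := by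
    intro s hs a ha
    have := Finset.mem_pi.1 (Finset.mem_sigma.1 hs).2 a ha
    exact Finset.mem_range.1 this
  have hinj : Set.InjOn (expo R) (X : Set _) := by
    intro s hs t ht h
    exact expo_inj hR (hlt s hs) (hlt t ht) h
  have hcard : (X.image (expo R)).card = ∑ F ∈ 𝓕, R ^ F.card := by
    rw [Finset.card_image_of_injOn hinj, hX, Finset.card_sigma]
    apply Finset.sum_congr rfl
    intro F _
    rw [Finset.card_pi]
    simp
  refine ⟨X.image (expo R), ?_, ?_, ?_, ?_⟩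
  · rw [← Finset.card_pos, hcard]
    apply Finset.sum_pos
    · intro F _
      positivity
    · exact hne
  · intro m hm
    obtain ⟨s, hs, rfl⟩ := Finset.mem_image.1 hm
    have h1 : s.1.Nonempty := hF _ (Finset.mem_sigma.1 hs).1
    unfold expo
    apply Finset.sum_pos
    · intro x _
      positivity
    · exact h1.attach
  · rw [hcard]
    apply Finset.dvd_sum
    intro F hFF
    exact dvd_pow_self R (Finset.card_pos.2 (hF F hFF)).ne'
  · unfold val
    rw [Finset.sum_image (fun s hs t ht h => hinj hs ht h), hX, Finset.sum_sigma]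
    apply Finset.sum_congr rfl
    intro F _
    unfold seq
    rw [Finset.prod_sum]
    apply Finset.sum_congr rfl
    intro p _
    unfold expo
    rw [Finset.prod_pow_eq_pow_sum, Finset.mul_sum]

theorem main {M : Type*} [Monoid M] [Finite M] (φ : ℕ → M) {b : ℕ} (hb : 1 < b) :
    ∃ x : ℕ → ℕ, StrictMono x ∧ 0 < x 0 ∧ ∃ g : M, ∀ 𝓕 : Finset (Finset ℕ), 𝓕.Nonempty →
      (∀ F ∈ 𝓕, F.Nonempty) → word φ b (∑ F ∈ 𝓕, ∏ i ∈ F, x i) = g := by
  obtain ⟨N, P, hN, hP, g, h⟩ := exists_const φ hb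
  refine ⟨seq b N (2 * P), ?_, ?_, g, ?_⟩
  · apply strictMono_nat_of_lt_succ
    intro i
    unfold seq
    apply Finset.sum_lt_sum_of_nonempty
    · exact ⟨0, Finset.mem_range.2 (by omega)⟩
    · intro j _
      apply Nat.pow_lt_pow_right hb
      apply Nat.mul_lt_mul_of_pos_left _ (by omega)
      apply Nat.pow_lt_pow_right (by norm_num)
      have : 2 * P * (i + 1) = 2 * P * i + 2 * P := by ring
      omega
  · unfold seq
    apply Finset.sum_pos
    · intro j _
      positivity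
    · exact ⟨0, Finset.mem_range.2 (by omega)⟩
  · intro 𝓕 hne hF
    obtain ⟨T, h1, h2, h3, h4⟩ := sum_prod b N (2 * P) (by omega) 𝓕 hne hF
    rw [h4]
    exact h T h1 h2 h3

/-- the action of a digit on the states -/
def act {Q : Type} (δ : Q → ℕ → Q) (d : ℕ) : Function.End Q := fun q => δ q d

theorem act_smul {Q : Type} (δ : Q → ℕ → Q) (d : ℕ) (q : Q) : act δ d • q = δ q d := rfl

theorem foldr_act {Q : Type} (δ : Q → ℕ → Q) (L : List ℕ) (q : Q) :
    L.foldr (fun d q => δ q d) q = (L.map (act δ)).prod • q := by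
  induction L with
  | nil => rfl
  | cons d L ih => rw [List.foldr_cons, List.map_cons, List.prod_cons, mul_smul, act_smul, ih]

theorem foldl_act {Q : Type} (δ : Q → ℕ → Q) (L : List ℕ) (q : Q) :
    L.foldl δ q = (MulOpposite.unop (L.map (fun d => MulOpposite.op (act δ d))).prod) • q := by
  induction L generalizing q with
  | nil => rfl
  | cons d L ih =>
    rw [List.foldl_cons, List.map_cons, List.prod_cons, MulOpposite.unop_mul, mul_smul,
      MulOpposite.unop_op, act_smul, ih]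

theorem finite_end {Q : Type} [Finite Q] : Finite (Function.End Q) :=
  inferInstanceAs (Finite (Q → Q))

/-- automata, least significant digit first -/
theorem main_lsd {Q κ : Type} [Finite Q] (δ : Q → ℕ → Q) (q₀ : Q) (τ : Q → κ) {b : ℕ} (hb : 1 < b)
    (c : ℕ → κ) (hc : ∀ n, c n = τ ((Nat.digits b n).foldl δ q₀)) :
    ∃ x : ℕ → ℕ, StrictMono x ∧ 0 < x 0 ∧ ∃ k : κ, ∀ 𝓕 : Finset (Finset ℕ), 𝓕.Nonempty →
      (∀ F ∈ 𝓕, F.Nonempty) → c (∑ F ∈ 𝓕, ∏ i ∈ F, x i) = k := by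
  have : Finite (Function.End Q) := finite_end
  have : Finite (Function.End Q)ᵐᵒᵖ := Finite.of_equiv _ MulOpposite.opEquiv
  obtain ⟨x, h1, h2, g, h3⟩ := main (M := (Function.End Q)ᵐᵒᵖ)
    (fun d => MulOpposite.op (act δ d)) hb
  refine ⟨x, h1, h2, τ (MulOpposite.unop g • q₀), ?_⟩
  intro 𝓕 hne hF
  rw [hc, foldl_act, ← h3 𝓕 hne hF]
  rfl

/-- automata, most significant digit first -/
theorem main_msd {Q κ : Type} [Finite Q] (δ : Q → ℕ → Q) (q₀ : Q) (τ : Q → κ) {b : ℕ} (hb : 1 < b)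
    (c : ℕ → κ) (hc : ∀ n, c n = τ ((Nat.digits b n).reverse.foldl δ q₀)) :
    ∃ x : ℕ → ℕ, StrictMono x ∧ 0 < x 0 ∧ ∃ k : κ, ∀ 𝓕 : Finset (Finset ℕ), 𝓕.Nonempty →
      (∀ F ∈ 𝓕, F.Nonempty) → c (∑ F ∈ 𝓕, ∏ i ∈ F, x i) = k := by
  have : Finite (Function.End Q) := finite_end
  obtain ⟨x, h1, h2, g, h3⟩ := main (M := Function.End Q) (act δ) hb
  refine ⟨x, h1, h2, τ (g • q₀), ?_⟩
  intro 𝓕 hne hF
  rw [hc, List.foldl_reverse, foldr_act, ← h3 𝓕 hne hF]
  rfl

end Pool.Agent.Y388.AU
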